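import Pool.Agent.H6.NE.Stm2

/-!
# NE: part CNT
-/

set_option autoImplicit false

open Finset H6.NE

namespace H32.NE

theorem Nd_sub {p N : ℕ} {T T' : Finset (ZMod (p ^ N))} (h : Nd T) (hs : T' ⊆ T) : Nd T' :=
  fun s hs' t ht' hne => h s (hs hs') t (hs ht') hne

theorem t_CNT (hKPU : S_KPU) (hBND : S_BND) : S_CNT := by
  intro p N _ hN hp2 G V _ _ _ _ _ ρ e hG hO K F hF Gd r hI u hu x
  have hfin : Finite (LG (qr ρ F hF) K) := by
    have h0 : Finite (V ⧸ F) := Finite.of_surjective F.mkQ F.mkQ_surjective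
    have : Finite (Module.End (ZMod (p ^ N)) (V ⧸ F)) := DFunLike.finite _
    infer_instance
  have hre : r ≤ e := ((hBND p N hN hp2 G V ρ e hG hO K F hF hI.hJ).2 Gd r hI).1
  have key : ∀ T : Finset (ZMod (p ^ N)), Nd T → T.card ≤ e + 1 → (∀ s ∈ T, x + s • u ∉ Gd) →
      T.card ≤ r := by
    intro T h1 h2 h3
    have h4 := hI.cnt u hu x T h1 h2 h3
    have h5 := (hKPU p N (LG (qr ρ F hF) K) (V ⧸ F) (V ⧸ F) (bl (qr ρ F hF) K) (F.mkQ x)
      (F.mkQ u) e).2
    unfold SG at h4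
    omega
  intro T h1 h3
  by_cases h2 : T.card ≤ e + 1
  · exact key T h1 h2 h3
  · obtain ⟨T', hT', hc⟩ := Finset.exists_subset_card_eq (show e + 1 ≤ T.card by omega)
    have := key T' (Nd_sub h1 hT') hc.le (fun s hs => h3 s (hT' hs))
    omega

end H32.NE
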