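import Pool.Agent.H32.NE.Stg

/-!
# NE: part STC
-/

set_option autoImplicit false

open Finset H6.NE

namespace H32.NE

section
variable {p N : ℕ} {G V : Type} [Group G] [AddCommGroup V] [Module (ZMod (p ^ N)) V]
  (ρ : Representation (ZMod (p ^ N)) G V)

theorem JV_mono {K1 K : Subgroup G} (h : K1 ≤ K) (m : ℕ) : JV ρ K1 m ≤ JV ρ K m := by
  induction m with
  | zero => exact le_rfl
  | succ m ih =>
    apply Submodule.span_mono
    rintro w ⟨k, hk, v, hv, rfl⟩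
    exact ⟨k, h hk, v, ih hv, rfl⟩

theorem mem_SG (K : Subgroup G) (v : V) (y : LG ρ K) :
    y ∈ SG ρ K v ↔ (y : Module.End (ZMod (p ^ N)) V) v = 0 := by
  unfold SG
  rw [mem_Sv]
  rfl

theorem UK_card (K : Subgroup G) : Nat.card (UK ρ K) =
    (MonoidHom.toHomUnits (ρ : G →* Module.End (ZMod (p ^ N)) V)).ker.relIndex K := by
  unfold UK
  rw [Subgroup.relIndex_ker]

theorem relfac {p : ℕ} {G : Type} [Group G] [Finite G] (M K1 K : Subgroup G) (hK1 : K1 ≤ K)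
    (hle : M ⊓ K ≤ K1) : (M.relIndex K).factorization p =
      (M.relIndex K1).factorization p + (K1.relIndex K).factorization p := by
  have e1 : M.relIndex K = (M ⊓ K).relIndex K := by rw [Subgroup.inf_relIndex_right]
  have e2 : M.relIndex K1 = (M ⊓ K).relIndex K1 := by
    rw [← Subgroup.inf_relIndex_right (M ⊓ K) K1, ← Subgroup.inf_relIndex_right M K1,
      inf_assoc, inf_eq_right.2 hK1]
  rw [e1, e2, ← Subgroup.relIndex_mul_relIndex (M ⊓ K) K1 K hle hK1,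
    Nat.factorization_mul]
  · rfl
  · exact Subgroup.index_ne_zero_of_finite
  · exact Subgroup.index_ne_zero_of_finite

end

theorem LG_card (hSTG : S_STG) (hLH1 : S_LH1) (p N : ℕ) [Fact p.Prime] (hN : 0 < N) (hp2 : 2 < p)
    (G V : Type) [Group G] [AddCommGroup V] [Module (ZMod (p ^ N)) V]
    (ρ : Representation (ZMod (p ^ N)) G V) (K : Subgroup G) (hJ : JV ρ K (p - 1) = ⊥)
    (K1 : Subgroup G) (hK1 : K1 ≤ K) : Nat.card (LG ρ K1) =
      (MonoidHom.toHomUnits (ρ : G →* Module.End (ZMod (p ^ N)) V)).ker.relIndex K1 := by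
  have hJ1 : JV ρ K1 (p - 1) = ⊥ := by
    rw [eq_bot_iff, ← hJ]
    exact JV_mono ρ hK1 _
  obtain ⟨U, -⟩ := hSTG p N hN hp2 G V ρ K1 hJ1
  obtain ⟨-, -, -, -, L5, -⟩ := hLH1 p N (p - 2) hN (Module.End (ZMod (p ^ N)) V) (JE ρ K1)
    (UK ρ K1) U
  rw [← UK_card]
  exact L5

theorem STC1 (hSTG : S_STG) (hLH1 : S_LH1) (p N : ℕ) [Fact p.Prime] (hN : 0 < N) (hp2 : 2 < p)
    (G V : Type) [Group G] [Finite G] [AddCommGroup V] [Module (ZMod (p ^ N)) V]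
    (ρ : Representation (ZMod (p ^ N)) G V) (K : Subgroup G) (hJ : JV ρ K (p - 1) = ⊥) :
    ∀ K1 ≤ K, (∀ k ∈ K, ρ k = 1 → k ∈ K1) →
      ln p (LG ρ K) = ln p (LG ρ K1) + (K1.relIndex K).factorization p := by
  intro K1 hK1 hker
  unfold ln
  rw [LG_card hSTG hLH1 p N hN hp2 G V ρ K hJ K le_rfl,
    LG_card hSTG hLH1 p N hN hp2 G V ρ K hJ K1 hK1]
  apply relfac _ _ _ hK1
  intro k hk
  obtain ⟨h1, h2⟩ := Subgroup.mem_inf.1 hk
  apply hker k h2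
  have := congrArg (fun u : (Module.End (ZMod (p ^ N)) V)ˣ =>
    (u : Module.End (ZMod (p ^ N)) V)) (MonoidHom.mem_ker.1 h1)
  exact this

theorem STC3 (hSTG : S_STG) (p N : ℕ) [Fact p.Prime] (hN : 0 < N) (hp2 : 2 < p)
    (G V : Type) [Group G] [AddCommGroup V] [Module (ZMod (p ^ N)) V]
    (ρ : Representation (ZMod (p ^ N)) G V) (K : Subgroup G) (hJ : JV ρ K (p - 1) = ⊥) :
    ∀ v, ∀ y : LG ρ K, y ∈ SG ρ K v ↔
      (y : Module.End (ZMod (p ^ N)) V) ∈ LG ρ (K ⊓ stb ρ v) := by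
  obtain ⟨-, A2, -, -, A5, A6, -⟩ := hSTG p N hN hp2 G V ρ K hJ
  intro v y
  rw [mem_SG, A6 y y.2 v]
  constructor
  · intro h
    obtain ⟨-, k, hk, e⟩ := A2 y y.2
    refine (A5 (K ⊓ stb ρ v) inf_le_left).2 y y.2 k ⟨hk, ?_⟩ e
    show ρ k v = v
    rw [← e]
    exact h
  · intro h
    have hJ1 : JV ρ (K ⊓ stb ρ v) (p - 1) = ⊥ := by
      rw [eq_bot_iff, ← hJ]
      exact JV_mono ρ inf_le_left _
    obtain ⟨-, B2, -⟩ := hSTG p N hN hp2 G V ρ (K ⊓ stb ρ v) hJ1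
    obtain ⟨-, k, hk, e⟩ := B2 y h
    rw [e]
    exact hk.2

theorem card_sub {R E : Type} [Ring R] [AddCommGroup E] [Module R E] (A B : Submodule R E)
    (hBA : B ≤ A) (S : Submodule R A) (h : ∀ y : A, y ∈ S ↔ (y : E) ∈ B) :
    Nat.card B = Nat.card S := by
  apply Nat.card_congr
  exact
    { toFun := fun z => ⟨⟨z.1, hBA z.2⟩, (h _).2 z.2⟩
      invFun := fun y => ⟨y.1.1, (h _).1 y.2⟩
      left_inv := fun z => rfl
      right_inv := fun y => rfl }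

theorem STC2 (hSTG : S_STG) (hLH1 : S_LH1) (p N : ℕ) [Fact p.Prime] (hN : 0 < N) (hp2 : 2 < p)
    (G V : Type) [Group G] [Finite G] [AddCommGroup V] [Module (ZMod (p ^ N)) V]
    (ρ : Representation (ZMod (p ^ N)) G V) (K : Subgroup G) (hJ : JV ρ K (p - 1) = ⊥) (v : V) :
    ln p (LG ρ K) = ln p (SG ρ K v) + ((stb ρ v).relIndex K).factorization p := by
  obtain ⟨-, A2, -, -, A5, A6, -⟩ := hSTG p N hN hp2 G V ρ K hJ
  have h1 := STC1 hSTG hLH1 p N hN hp2 G V ρ K hJ (K ⊓ stb ρ v) inf_le_left (by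
    intro k hk e
    refine ⟨hk, ?_⟩
    show ρ k v = v
    rw [e]
    rfl)
  rw [Subgroup.inf_relIndex_left] at h1
  have h2 : Nat.card (LG ρ (K ⊓ stb ρ v)) = Nat.card (SG ρ K v) :=
    card_sub (LG ρ K) (LG ρ (K ⊓ stb ρ v)) (A5 (K ⊓ stb ρ v) inf_le_left).1 (SG ρ K v)
      (STC3 hSTG p N hN hp2 G V ρ K hJ v)
  have h3 : ln p (LG ρ (K ⊓ stb ρ v)) = ln p (SG ρ K v) := by
    unfold ln
    rw [h2]
  rw [h1, h3]

theorem t_STC (hSTG : S_STG) (hLH1 : S_LH1) : S_STC := by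
  intro p N _ hN hp2 G V _ _ _ _ _ ρ K hJ
  exact ⟨STC1 hSTG hLH1 p N hN hp2 G V ρ K hJ, STC2 hSTG hLH1 p N hN hp2 G V ρ K hJ,
    STC3 hSTG p N hN hp2 G V ρ K hJ⟩

end H32.NE
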