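import Pool.Agent.H6.NE.Stm2

/-!
# NE: part STG
-/

set_option autoImplicit false

open Finset H6.NE

namespace H32.NE

section
variable {p N : ℕ} {G V : Type} [Group G] [AddCommGroup V] [Module (ZMod (p ^ N)) V]
  (ρ : Representation (ZMod (p ^ N)) G V)

theorem JE_mono {K1 K : Subgroup G} (h : K1 ≤ K) : JE ρ K1 ≤ JE ρ K := by
  unfold JE
  apply Submodule.span_mono
  rintro y ⟨k, hk, rfl⟩
  exact ⟨k, h hk, rfl⟩

theorem JE_mem (K : Subgroup G) {k : G} (hk : k ∈ K) :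
    (ρ k : Module.End (ZMod (p ^ N)) V) - 1 ∈ JE ρ K := Submodule.subset_span ⟨k, hk, rfl⟩

theorem JE_JV (K : Subgroup G) (a : Module.End (ZMod (p ^ N)) V) (ha : a ∈ JE ρ K) (j : ℕ)
    (v : V) (hv : v ∈ JV ρ K j) : a v ∈ JV ρ K (j + 1) := by
  unfold JE at ha
  induction ha using Submodule.span_induction with
  | mem x hx =>
    obtain ⟨k, hk, rfl⟩ := hx
    apply Submodule.subset_span
    exact ⟨k, hk, v, hv, by simp⟩
  | zero => simp
  | add x y _ _ hx hy =>
    rw [LinearMap.add_apply]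
    exact add_mem hx hy
  | smul c x _ hx =>
    rw [LinearMap.smul_apply]
    exact Submodule.smul_mem _ _ hx

theorem JE_mul (K : Subgroup G) : JE ρ K * JE ρ K ≤ JE ρ K := by
  rw [Submodule.mul_le]
  intro a ha b hb
  unfold JE at ha hb
  induction ha using Submodule.span_induction with
  | mem x hx =>
    obtain ⟨g, hg, rfl⟩ := hx
    induction hb using Submodule.span_induction with
    | mem y hy =>
      obtain ⟨h, hh, rfl⟩ := hy
      have e : ((ρ g : Module.End (ZMod (p ^ N)) V) - 1) * ((ρ h : Module.End (ZMod (p ^ N)) V) - 1)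
        = ((ρ (g * h) : Module.End (ZMod (p ^ N)) V) - 1) - ((ρ g : Module.End (ZMod (p ^ N)) V) - 1)
          - ((ρ h : Module.End (ZMod (p ^ N)) V) - 1) := by
        rw [map_mul]
        noncomm_ring
      rw [e]
      exact sub_mem (sub_mem (JE_mem ρ K (mul_mem hg hh)) (JE_mem ρ K hg)) (JE_mem ρ K hh)
    | zero => simp
    | add x y _ _ hx hy => rw [mul_add]; exact add_mem hx hy
    | smul c x _ hx => rw [mul_smul_comm]; exact Submodule.smul_mem _ _ hx
  | zero => simp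
  | add x y _ _ hx hy => rw [add_mul]; exact add_mem hx hy
  | smul c x _ hx => rw [smul_mul_assoc]; exact Submodule.smul_mem _ _ hx

theorem JE_pow_JV (K : Subgroup G) (m : ℕ) :
    ∀ a ∈ (JE ρ K) ^ m, ∀ v : V, a v ∈ JV ρ K m := by
  induction m with
  | zero => intro a _ v; exact Submodule.mem_top
  | succ m ih =>
    intro a ha v
    rw [pow_succ'] at ha
    induction ha using Submodule.mul_induction_on' with
    | mem_mul_mem x hx y hy =>
      rw [Module.End.mul_apply]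
      exact JE_JV ρ K x hx m _ (ih y hy v)
    | add x _ y _ hx hy =>
      rw [LinearMap.add_apply]
      exact add_mem hx hy

theorem JE_pow_bot (K : Subgroup G) (m : ℕ) (h : JV ρ K m = ⊥) : (JE ρ K) ^ m = ⊥ := by
  rw [eq_bot_iff]
  intro a ha
  rw [Submodule.mem_bot]
  ext v
  have := JE_pow_JV ρ K m a ha v
  rw [h, Submodule.mem_bot] at this
  simpa using this

theorem UK_mem (K : Subgroup G) (h : (Module.End (ZMod (p ^ N)) V)ˣ) :
    h ∈ UK ρ K ↔ ∃ k ∈ K, (h : Module.End (ZMod (p ^ N)) V) = ρ k := by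
  unfold UK
  rw [Subgroup.mem_map]
  constructor
  · rintro ⟨k, hk, rfl⟩
    exact ⟨k, hk, rfl⟩
  · rintro ⟨k, hk, e⟩
    refine ⟨k, hk, ?_⟩
    ext1
    rw [e]
    rfl

end

theorem t_STG (hEX : S_EX) (hLH1 : S_LH1) : S_STG := by
  intro p N _ hN hp2 G V _ _ _ ρ K hJ
  have e1 : p - 2 + 1 = p - 1 := by omega
  have hlt : p - 2 < p := by omega
  have hnil : (JE ρ K) ^ (p - 2 + 1) = ⊥ := by rw [e1]; exact JE_pow_bot ρ K _ hJ
  have hU : Uni p N (p - 2) (JE ρ K) (UK ρ K) := by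
    refine ⟨JE_mul ρ K, hlt, hnil, ?_⟩
    intro h hh
    obtain ⟨k, hk, e⟩ := (UK_mem ρ K h).1 hh
    rw [e]
    exact JE_mem ρ K hk
  obtain ⟨-, -, X3, X4, X5, -, -⟩ := hEX p N (p - 2) (Module.End (ZMod (p ^ N)) V) (JE ρ K)
    (JE_mul ρ K) hlt hnil
  obtain ⟨L1, -⟩ := hLH1 p N (p - 2) hN (Module.End (ZMod (p ^ N)) V) (JE ρ K) (UK ρ K) hU
  have A2 : ∀ y ∈ LG ρ K, y ∈ JE ρ K ∧ ∃ k ∈ K, ex p N y = ρ k := by
    intro y hy
    obtain ⟨h1, h, hh, e⟩ := (L1 y).1 hy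
    obtain ⟨k, hk, e'⟩ := (UK_mem ρ K h).1 hh
    exact ⟨h1, k, hk, by rw [← e, e']⟩
  have mk : ∀ (K1 : Subgroup G) (y : Module.End (ZMod (p ^ N)) V) (k : G), y ∈ JE ρ K1 → k ∈ K1 →
      ex p N y = ρ k → y ∈ LG ρ K1 := by
    intro K1 y k hy hk e
    apply Submodule.subset_span
    refine ⟨hy, MonoidHom.toHomUnits (ρ : G →* Module.End (ZMod (p ^ N)) V) k,
      (UK_mem ρ K1 _).2 ⟨k, hk, rfl⟩, ?_⟩
    rw [e]
    rfl
  refine ⟨hU, A2, ?_, ?_, ?_, ?_, ?_⟩
  · intro k hk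
    obtain ⟨x, hx, e, -⟩ := X4 (ρ k) (JE_mem ρ K hk)
    exact ⟨x, mk K x k hx hk e, e⟩
  · intro y hy z hz e
    exact X3 y (A2 y hy).1 z (A2 z hz).1 e
  · intro K1 hK1
    constructor
    · unfold LG LHm
      apply Submodule.span_mono
      rintro x ⟨hx, h, hh, e⟩
      refine ⟨JE_mono ρ hK1 hx, h, ?_, e⟩
      obtain ⟨k, hk, e'⟩ := (UK_mem ρ K1 h).1 hh
      exact (UK_mem ρ K h).2 ⟨k, hK1 hk, e'⟩
    · intro y hy k hk e
      have hJ1 : (JE ρ K1) ^ (p - 2 + 1) = ⊥ := by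
        rw [eq_bot_iff, ← hnil]
        exact pow_le_pow_left' (JE_mono ρ hK1) _
      obtain ⟨-, -, -, Y4, -, -, -⟩ := hEX p N (p - 2) (Module.End (ZMod (p ^ N)) V) (JE ρ K1)
        (JE_mul ρ K1) hlt hJ1
      obtain ⟨x, hx, ex', -⟩ := Y4 (ρ k) (JE_mem ρ K1 hk)
      have : x = y := X3 x (JE_mono ρ hK1 hx) y (A2 y hy).1 (by rw [ex', e])
      subst this
      exact mk K1 x k hx hk e
  · intro y hy v
    obtain ⟨w, hw, e⟩ := X5 y (A2 y hy).1
    have e2 : ex p N y v - v = (w : Module.End (ZMod (p ^ N)) V) (y v) := by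
      have : (ex p N y - 1) v = (y * (w : Module.End (ZMod (p ^ N)) V)) v := by rw [e]
      rw [← hw.eq] at this
      simpa using this
    constructor
    · intro h0
      rw [h0, map_zero, sub_eq_zero] at e2
      exact e2
    · intro h0
      rw [h0, sub_self] at e2
      have : ((w⁻¹ : (Module.End (ZMod (p ^ N)) V)ˣ) : Module.End (ZMod (p ^ N)) V)
          ((w : Module.End (ZMod (p ^ N)) V) (y v)) = 0 := by rw [← e2, map_zero]
      rw [← Module.End.mul_apply, Units.inv_mul] at this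
      simpa using this
  · intro y hy j v hv
    exact JE_JV ρ K y (A2 y hy).1 j v hv

end H32.NE
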